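import Pool.Agent.Q24.PF.Lew
import Pool.Agent.Helper122.Induct

set_option autoImplicit false

/-!
# Derivations of free groups into the group algebra
-/

namespace Pool.Agent.Q24.PF

open Pool.Agent.Helper122.Cuts

/-- homomorphisms of `H` to finite groups which lift a homomorphism of `F` extend to `F` -/
def Ext (F : Type) [Group F] (H : Subgroup F) : Prop :=
  ∀ (P Q : Type) [Group P] [Group Q] [Finite P] [Finite Q] (q : P →* Q), Function.Surjective q →
    ∀ (ρ : F →* Q) (σ : H →* P), (∀ h : H, q (σ h) = ρ h) →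
      ∃ τ : F →* P, (∀ f, q (τ f) = ρ f) ∧ ∀ h : H, τ h = σ h

section der

variable {α : Type} {p : ℕ}

/-- right translation -/
noncomputable def rt (g : FreeGroup α) : (FreeGroup α →₀ ZMod p) ≃ₗ[ZMod p]
    (FreeGroup α →₀ ZMod p) :=
  Finsupp.domLCongr (Equiv.mulRight g)

theorem rt_single (g x : FreeGroup α) (a : ZMod p) :
    rt g (Finsupp.single x a) = Finsupp.single (x * g) a := by
  unfold rt
  rw [Finsupp.domLCongr_single]
  rfl

/-- left translation as a linear map -/
noncomputable def tlL (g : FreeGroup α) : (FreeGroup α →₀ ZMod p) →ₗ[ZMod p]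
    (FreeGroup α →₀ ZMod p) :=
  Finsupp.lmapDomain (ZMod p) (ZMod p) (fun e => g • e)

theorem tlL_eq (g : FreeGroup α) (x : FreeGroup α →₀ ZMod p) : tl g x = tlL g x := rfl

theorem tl_single (g x : FreeGroup α) (a : ZMod p) :
    tl g (Finsupp.single x a) = Finsupp.single (g * x) a := by
  unfold tl
  rw [Finsupp.mapDomain_single]
  rfl

theorem rt_tl (g h : FreeGroup α) (x : FreeGroup α →₀ ZMod p) : rt g (tl h x) = tl h (rt g x) := by
  rw [tlL_eq, tlL_eq]
  have : (rt g).toLinearMap ∘ₗ tlL h = tlL (p := p) h ∘ₗ (rt g).toLinearMap := by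
    apply Finsupp.lhom_ext
    intro e a
    simp only [LinearMap.comp_apply, LinearEquiv.coe_coe]
    rw [← tlL_eq, ← tlL_eq, tl_single, rt_single, rt_single, tl_single, mul_assoc]
  exact LinearMap.congr_fun this x

/-- derivations with given values on the basis -/
theorem exists_der (a : α → (FreeGroup α →₀ ZMod p)) :
    ∃ D : FreeGroup α → (FreeGroup α →₀ ZMod p), IsDer D ∧ ∀ i, D (FreeGroup.of i) = a i := by
  let Θ : FreeGroup α →* Equiv.Perm (FreeGroup α →₀ ZMod p) := FreeGroup.lift (fun i =>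
    { toFun := fun x => tl (FreeGroup.of i) x + a i
      invFun := fun x => tl (FreeGroup.of i)⁻¹ (x - a i)
      left_inv := fun x => by
        simp only [add_sub_cancel_right]
        rw [tl_tl, inv_mul_cancel, tl_one]
      right_inv := fun x => by
        simp only
        rw [tl_tl, mul_inv_cancel, tl_one, sub_add_cancel] })
  have hΘ : ∀ (f : FreeGroup α) (x : FreeGroup α →₀ ZMod p), Θ f x = tl f x + Θ f 0 := by
    intro f
    induction f using FreeGroup.induction_on with
    | C1 =>
      intro x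
      rw [map_one, tl_one]
      simp
    | of i =>
      intro x
      have e : ∀ y, Θ (FreeGroup.of i) y = tl (FreeGroup.of i) y + a i := by
        intro y
        simp only [Θ, FreeGroup.lift_apply_of]
        rfl
      rw [e, e, tlL_eq, tlL_eq, map_zero, zero_add]
    | inv_of i _ =>
      intro x
      have e : ∀ y, Θ (FreeGroup.of i)⁻¹ y = tl (FreeGroup.of i)⁻¹ (y - a i) := by
        intro y
        rw [map_inv]
        simp only [Θ, FreeGroup.lift_apply_of]
        rfl
      rw [e, e, tlL_eq, tlL_eq, tlL_eq, map_sub, map_sub, map_zero]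
      abel
    | mul f g hf hg =>
      intro x
      rw [map_mul, Equiv.Perm.mul_apply, Equiv.Perm.mul_apply, hf (Θ g x), hf (Θ g 0), hg x,
        tl_add, tl_tl]
      abel
  refine ⟨fun f => Θ f 0, ?_, ?_⟩
  · intro f g
    change Θ (f * g) 0 = Θ f 0 + tl f (Θ g 0)
    rw [map_mul, Equiv.Perm.mul_apply, hΘ f (Θ g 0), add_comm]
  · intro i
    simp only [Θ, FreeGroup.lift_apply_of]
    change tl (FreeGroup.of i) 0 + a i = a i
    rw [tlL_eq, map_zero, zero_add]

theorem IsDer.smul {D : FreeGroup α → (FreeGroup α →₀ ZMod p)} (h : IsDer D) (c : ZMod p) :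
    IsDer (fun f => c • D f) := by
  intro f g
  beta_reduce
  rw [h f g, smul_add, tlL_eq, tlL_eq, map_smul]

theorem IsDer.add {D D' : FreeGroup α → (FreeGroup α →₀ ZMod p)} (h : IsDer D) (h' : IsDer D') :
    IsDer (fun f => D f + D' f) := by
  intro f g
  beta_reduce
  rw [h f g, h' f g, tl_add]
  abel

theorem IsDer.neg {D : FreeGroup α → (FreeGroup α →₀ ZMod p)} (h : IsDer D) :
    IsDer (fun f => -D f) := by
  intro f g
  beta_reduce
  rw [h f g, tlL_eq, tlL_eq, map_neg]
  abel

theorem IsDer.rt {D : FreeGroup α → (FreeGroup α →₀ ZMod p)} (h : IsDer D) (g : FreeGroup α) :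
    IsDer (fun f => rt g (D f)) := by
  intro f f'
  beta_reduce
  rw [h f f', map_add, rt_tl]

theorem isDer_zero : IsDer (fun _ : FreeGroup α => (0 : FreeGroup α →₀ ZMod p)) := by
  intro f g
  beta_reduce
  rw [tlL_eq, map_zero, add_zero]

theorem isDer_sum {ι : Type} (s : Finset ι) {D : ι → FreeGroup α → (FreeGroup α →₀ ZMod p)}
    (h : ∀ i ∈ s, IsDer (D i)) : IsDer (fun f => ∑ i ∈ s, D i f) := by
  classical
  induction s using Finset.induction_on with
  | empty => simpa using isDer_zero
  | insert i s hi ih =>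
    have h1 := IsDer.add (h i (Finset.mem_insert_self i s))
      (ih (fun j hj => h j (Finset.mem_insert_of_mem hj)))
    have e : (fun f => ∑ j ∈ insert i s, D j f) = fun f => D i f + ∑ j ∈ s, D j f := by
      funext f
      rw [Finset.sum_insert hi]
    rw [e]
    exact h1

/-- the inner derivation -/
theorem isDer_inner : IsDer (fun f : FreeGroup α =>
    (Finsupp.single f 1 - Finsupp.single 1 1 : FreeGroup α →₀ ZMod p)) := by
  intro f g
  beta_reduce
  rw [tlL_eq, map_sub, ← tlL_eq, ← tlL_eq, tl_single, tl_single, mul_one]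
  abel

/-- the values of the derivations on a family -/
def vals {ι : Type} (w : ι → FreeGroup α) : Submodule (ZMod p) (ι → (FreeGroup α →₀ ZMod p)) where
  carrier := {u | ∃ D, IsDer D ∧ ∀ i, u i = D (w i)}
  add_mem' := by
    rintro u u' ⟨D, h, hu⟩ ⟨D', h', hu'⟩
    exact ⟨_, IsDer.add h h', fun i => by rw [Pi.add_apply, hu, hu']⟩
  zero_mem' := ⟨_, isDer_zero, fun i => rfl⟩
  smul_mem' := by
    rintro c u ⟨D, h, hu⟩
    exact ⟨_, IsDer.smul h c, fun i => by rw [Pi.smul_apply, hu]⟩

theorem mem_vals {ι : Type} (w : ι → FreeGroup α) (u : ι → (FreeGroup α →₀ ZMod p)) :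
    u ∈ vals w ↔ ∃ D, IsDer D ∧ ∀ i, u i = D (w i) := Iff.rfl

/-- right translation of families -/
noncomputable def RT (ι : Type) (g : FreeGroup α) : (ι → (FreeGroup α →₀ ZMod p)) ≃ₗ[ZMod p]
    (ι → (FreeGroup α →₀ ZMod p)) :=
  LinearEquiv.piCongrRight (fun _ => rt g)

theorem RT_apply {ι : Type} (g : FreeGroup α) (u : ι → (FreeGroup α →₀ ZMod p)) (i : ι) :
    RT ι g u i = rt g (u i) := rfl

theorem rt_rt (g h : FreeGroup α) (x : FreeGroup α →₀ ZMod p) : rt h (rt g x) = rt (g * h) x := by
  have : (rt h).toLinearMap ∘ₗ (rt g).toLinearMap = (rt (p := p) (g * h)).toLinearMap := by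
    apply Finsupp.lhom_ext
    intro e a
    simp only [LinearMap.comp_apply, LinearEquiv.coe_coe]
    rw [rt_single, rt_single, rt_single, mul_assoc]
  exact LinearMap.congr_fun this x

theorem rt_one (x : FreeGroup α →₀ ZMod p) : rt 1 x = x := by
  have : (rt (1 : FreeGroup α)).toLinearMap = (LinearMap.id : (FreeGroup α →₀ ZMod p) →ₗ[ZMod p] _) := by
    apply Finsupp.lhom_ext
    intro e a
    simp only [LinearEquiv.coe_coe, LinearMap.id_apply]
    rw [rt_single, mul_one]
  exact LinearMap.congr_fun this x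

theorem vals_RT {ι : Type} (w : ι → FreeGroup α) (g : FreeGroup α) :
    (vals (p := p) w).map (RT ι g).toLinearMap = vals w := by
  have hle : ∀ g : FreeGroup α, ∀ u ∈ vals (p := p) w, RT ι g u ∈ vals w := by
    rintro g u ⟨D, h, hu⟩
    exact ⟨_, IsDer.rt h g, fun i => by rw [RT_apply, hu]⟩
  apply le_antisymm
  · rintro _ ⟨u, hu, rfl⟩
    exact hle g u hu
  · intro u hu
    refine ⟨RT ι g⁻¹ u, hle _ u hu, ?_⟩
    funext i
    change rt g (rt g⁻¹ (u i)) = u i
    rw [rt_rt, inv_mul_cancel, rt_one]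

end der

end Pool.Agent.Q24.PF
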