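import Pool.Agent.Q24.PF.Der

set_option autoImplicit false

/-!
# The extension property implies the existence of derivations into the group algebra
-/

namespace Pool.Agent.Q24.PF

open Pool.Agent.Helper122.Cuts

section

variable {α : Type} [Finite α] {p : ℕ} [Fact p.Prime]

/-- **The completion argument of Lewin.** -/
theorem basis_mem_vals (H : Subgroup (FreeGroup α)) (hExt : Ext (FreeGroup α) H)
    (S : Set (FreeGroup α)) [Finite S] [DecidableEq S] (hS : Bas S H) (s : S) :
    (Pi.single s (Finsupp.single 1 1) : S → (FreeGroup α →₀ ZMod p)) ∈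
      vals (fun s : S => (s : FreeGroup α)) := by
  classical
  cases nonempty_fintype α
  cases nonempty_fintype S
  let k := ZMod p
  let w : S → FreeGroup α := fun s => (s : FreeGroup α)
  let P : Submodule k (S → (FreeGroup α →₀ ZMod p)) := vals w
  let Q := (S → (FreeGroup α →₀ ZMod p)) ⧸ P
  let X : α → (Q ≃ₗ[k] Q) := fun i =>
    Submodule.Quotient.equiv P P (RT S (FreeGroup.of i)) (vals_RT w (FreeGroup.of i))
  have hX : ∀ i u, X i (Submodule.Quotient.mk u) = Submodule.Quotient.mk (RT S (FreeGroup.of i) u) :=
    fun i u => rfl
  have hRT1 : ∀ u : S → (FreeGroup α →₀ ZMod p), RT S 1 u = u := by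
    intro u
    funext i
    rw [RT_apply, rt_one]
  have hRTm : ∀ (g h : FreeGroup α) (u : S → (FreeGroup α →₀ ZMod p)),
      RT S h (RT S g u) = RT S (g * h) u := by
    intro g h u
    funext i
    rw [RT_apply, RT_apply, RT_apply, rt_rt]
  have hact : ∀ (g : FreeGroup α) (u : S → (FreeGroup α →₀ ZMod p)),
      (ract X g).unop (Submodule.Quotient.mk u : Q) = Submodule.Quotient.mk (RT S g u) := by
    intro g
    induction g using FreeGroup.induction_on with
    | C1 =>
      intro u
      rw [map_one, hRT1]
      rfl
    | of i =>
      intro u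
      unfold ract
      rw [FreeGroup.lift_apply_of]
      exact hX i u
    | inv_of i _ =>
      intro u
      unfold ract
      rw [map_inv, FreeGroup.lift_apply_of]
      change (X i).symm _ = _
      rw [LinearEquiv.symm_apply_eq, hX, hRTm, inv_mul_cancel, hRT1]
    | mul a b ha hb =>
      intro u
      rw [ract_mul, ha, hb, hRTm]
  let q : S → Q := fun s => Submodule.Quotient.mk (Pi.single s (Finsupp.single 1 1))
  choose D hD hDv using fun i : α => exists_der (p := p)
    (fun l : α => if l = i then (Finsupp.single 1 1 : FreeGroup α →₀ ZMod p) else 0)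
  obtain ⟨n, hn⟩ : ∃ n : ℕ, ∀ (i : α) (s : S), ∀ g ∈ (D i (w s)).support, g.toWord.length ≤ n := by
    refine ⟨Finset.univ.sup (fun i => Finset.univ.sup (fun s : S => (D i (w s)).support.sup
      (fun g : FreeGroup α => g.toWord.length))), ?_⟩
    intro i s g hg
    have h1 := Finset.le_sup (f := fun g : FreeGroup α => g.toWord.length) hg
    have h2 := Finset.le_sup (f := fun s : S => (D i (w s)).support.sup
      (fun g : FreeGroup α => g.toWord.length)) (Finset.mem_univ s)
    have h3 := Finset.le_sup (f := fun i => Finset.univ.sup (fun s : S => (D i (w s)).support.sup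
      (fun g : FreeGroup α => g.toWord.length))) (Finset.mem_univ i)
    exact h1.trans (h2.trans h3)
  obtain ⟨W, hW, Y, hqW, hY⟩ := complete X q n
  let qb : S → W := fun s => ⟨q s, hqW s⟩
  have hYg : ∀ (s : S) (g : FreeGroup α), g.toWord.length ≤ n →
      (((ract Y g).unop (qb s) : W) : Q) = (ract X g).unop (q s) := by
    intro s g hg
    have h1 := hY s g.toWord hg
    have e : g = FreeGroup.mk g.toWord := FreeGroup.mk_toWord.symm
    have h2 : (ract Y g).unop (qb s) = wd Y g.toWord (qb s) := by
      conv_lhs => rw [e]
      exact ract_mk Y _ _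
    have h3 : (ract X g).unop (q s) = wd X g.toWord (q s) := by
      conv_lhs => rw [e]
      exact ract_mk X _ _
    rw [h2, h3]
    exact h1
  let LC : W → (FreeGroup α →₀ ZMod p) →ₗ[k] W := fun u =>
    Finsupp.linearCombination k (fun g => (ract Y g).unop u)
  -- the relations
  have hrel : ∀ i : α, ∑ s : S, LC (qb s) (D i (w s)) = 0 := by
    intro i
    have h1 : ∀ s : S, ((LC (qb s) (D i (w s)) : W) : Q) =
        Submodule.Quotient.mk (Pi.single s (D i (w s))) := by
      intro s
      let ψ : (FreeGroup α →₀ ZMod p) →ₗ[k] Q := P.mkQ ∘ₗ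
        LinearMap.single k (fun _ : S => (FreeGroup α →₀ ZMod p)) s
      have hψ : ψ = Finsupp.linearCombination k (fun g => ψ (Finsupp.single g 1)) := by
        apply Finsupp.lhom_ext
        intro g a
        rw [Finsupp.linearCombination_single, ← map_smul, Finsupp.smul_single, smul_eq_mul,
          mul_one]
      have h2 : (Submodule.Quotient.mk (Pi.single s (D i (w s))) : Q) = ψ (D i (w s)) := rfl
      rw [h2, hψ, Finsupp.linearCombination_apply, Finsupp.linearCombination_apply, Finsupp.sum,
        Finsupp.sum, Submodule.coe_sum]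
      refine Finset.sum_congr rfl fun g hg => ?_
      rw [Submodule.coe_smul, hYg s g (hn i s g hg), hact]
      congr 1
      have h3 : RT S g (Pi.single s (Finsupp.single 1 1) : S → (FreeGroup α →₀ ZMod p)) =
          Pi.single s (Finsupp.single g 1) := by
        funext j
        rw [RT_apply]
        by_cases hj : j = s
        · subst hj
          rw [Pi.single_eq_same, Pi.single_eq_same, rt_single, one_mul]
        · rw [Pi.single_eq_of_ne hj, Pi.single_eq_of_ne hj, map_zero]
      rw [h3]
      rfl
    apply Subtype.ext
    rw [Submodule.coe_sum, Finset.sum_congr rfl (fun s _ => h1 s), ZeroMemClass.coe_zero]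
    have h4 : ∑ s : S, (Submodule.Quotient.mk (Pi.single s (D i (w s))) : Q) =
        Submodule.Quotient.mk (fun s => D i (w s)) := by
      rw [← Submodule.mkQ_apply, ← Finset.univ_sum_single (fun s => D i (w s)), map_sum]
      rfl
    rw [h4, Submodule.Quotient.mk_eq_zero]
    exact ⟨D i, hD i, fun s => rfl⟩
  -- the dual module
  let V := Module.Dual k W
  have hWf : Finite W := Module.finite_of_finite k
  have hVf : Finite V := Module.finite_of_finite k
  let N := Multiplicative V
  have hNf : Finite N := hVf
  have hNaut : Finite (MulAut N) := Finite.of_injective (fun e : MulAut N => (e : N → N))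
    (fun e e' h => MulEquiv.ext (fun x => congrFun h x))
  let ρ : FreeGroup α →* MulAut N := MonoidHom.mk' (fun g =>
    AddEquiv.toMultiplicative ((ract Y g).unop.dualMap).toAddEquiv) (by
      intro a b
      refine MulEquiv.ext fun x => ?_
      apply Multiplicative.toAdd.injective
      apply LinearMap.ext
      intro u
      change (Multiplicative.toAdd x) ((ract Y (a * b)).unop u) =
        (Multiplicative.toAdd x) ((ract Y b).unop ((ract Y a).unop u))
      rw [ract_mul])
  have hρ : ∀ (g : FreeGroup α) (x : N) (u : W),
      Multiplicative.toAdd (ρ g x) u = (Multiplicative.toAdd x) ((ract Y g).unop u) :=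
    fun g x u => rfl
  let E := N ⋊[MonoidHom.id (MulAut N)] MulAut N
  have hEf : Finite E := Finite.of_equiv _ (SemidirectProduct.equivProd).symm
  obtain ⟨e, he⟩ := hS.retr
  have hSH : ∀ s : S, (s : FreeGroup α) ∈ H := by
    intro s
    rw [← hS.2]
    exact Subgroup.subset_closure s.2
  have key : ∀ lam : S → V, ∑ s : S, lam s (qb s) = 0 := by
    intro lam
    let σ : H →* E := (FreeGroup.lift (fun s : S =>
      (⟨Multiplicative.ofAdd (lam s), ρ s⟩ : E))).comp e.toMonoidHom
    have hσs : ∀ s : S, σ ⟨s, hSH s⟩ = ⟨Multiplicative.ofAdd (lam s), ρ s⟩ := by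
      intro s
      simp only [σ, MonoidHom.comp_apply]
      have : e.toMonoidHom ⟨s, hSH s⟩ = FreeGroup.of s := he s (hSH s)
      rw [this, FreeGroup.lift_apply_of]
    have hσ : ∀ h : H, SemidirectProduct.rightHom (σ h) = ρ h := by
      have h1 : ((SemidirectProduct.rightHom : E →* MulAut N).comp σ).comp e.symm.toMonoidHom =
          (ρ.comp H.subtype).comp e.symm.toMonoidHom := by
        apply FreeGroup.ext_hom
        intro s
        have h2 : e.symm.toMonoidHom (FreeGroup.of s) = ⟨s, hSH s⟩ := by
          change e.symm (FreeGroup.of s) = _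
          rw [MulEquiv.symm_apply_eq]
          exact (he s (hSH s)).symm
        change SemidirectProduct.rightHom (σ (e.symm.toMonoidHom (FreeGroup.of s))) =
          ρ ((e.symm.toMonoidHom (FreeGroup.of s) : H) : FreeGroup α)
        rw [h2, hσs]
        rfl
      intro h
      have h2 := DFunLike.congr_fun h1 (e h)
      simpa using h2
    obtain ⟨τ, hτ1, hτ2⟩ := hExt E (MulAut N) SemidirectProduct.rightHom
      SemidirectProduct.rightHom_surjective ρ σ hσ
    let C : FreeGroup α → V := fun f => Multiplicative.toAdd (τ f).left
    have hCm : ∀ f g u, C (f * g) u = C f u + C g ((ract Y f).unop u) := by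
      intro f g u
      have h1 : (τ f).right = ρ f := hτ1 f
      simp only [C]
      rw [map_mul, SemidirectProduct.mul_left, h1, toAdd_mul, LinearMap.add_apply]
      rfl
    have hC1 : ∀ u, C 1 u = 0 := by
      intro u
      simp only [C]
      rw [map_one, SemidirectProduct.one_left, toAdd_one]
      rfl
    have hCs : ∀ s : S, C (w s) = lam s := by
      intro s
      simp only [C]
      have := hτ2 ⟨s, hSH s⟩
      rw [hσs] at this
      change Multiplicative.toAdd (τ (s : FreeGroup α)).left = lam s
      have h2 : τ (s : FreeGroup α) = ⟨Multiplicative.ofAdd (lam s), ρ s⟩ := this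
      rw [h2]
      rfl
    have hLC : ∀ (u : W) (f : FreeGroup α) (x : FreeGroup α →₀ ZMod p),
        LC u (tl f x) = LC ((ract Y f).unop u) x := by
      intro u f x
      simp only [LC]
      unfold tl
      rw [Finsupp.linearCombination_mapDomain]
      congr 2
      funext g
      exact ract_mul Y f g u
    let Φ : FreeGroup α → W → k := fun f u => ∑ i : α, C (FreeGroup.of i) (LC u (D i f))
    have hΦm : ∀ f g u, Φ (f * g) u = Φ f u + Φ g ((ract Y f).unop u) := by
      intro f g u
      simp only [Φ]
      rw [← Finset.sum_add_distrib]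
      refine Finset.sum_congr rfl fun i _ => ?_
      rw [hD i f g, map_add, map_add, hLC]
    have hΦ1 : ∀ u, Φ 1 u = 0 := by
      intro u
      have h1 := hΦm 1 1 u
      rw [mul_one] at h1
      have h2 : (ract Y 1).unop u = u := by
        rw [map_one]
        rfl
      rw [h2] at h1
      linear_combination -h1
    have hCΦ : ∀ (f : FreeGroup α) (u : W), C f u = Φ f u := by
      intro f
      induction f using FreeGroup.induction_on with
      | C1 =>
        intro u
        rw [hC1, hΦ1]
      | of l =>
        intro u
        simp only [Φ]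
        rw [Finset.sum_eq_single l]
        · rw [hDv, if_pos rfl]
          simp only [LC]
          rw [Finsupp.linearCombination_single, one_smul, map_one]
          rfl
        · intro i _ hi
          rw [hDv, if_neg (fun h => hi h.symm), map_zero, map_zero]
        · intro h
          exact absurd (Finset.mem_univ l) h
      | inv_of l ih =>
        intro u
        have h1 := hCm (FreeGroup.of l) (FreeGroup.of l)⁻¹ ((ract Y (FreeGroup.of l)⁻¹).unop u)
        have h2 := hΦm (FreeGroup.of l) (FreeGroup.of l)⁻¹ ((ract Y (FreeGroup.of l)⁻¹).unop u)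
        have h3 : (ract Y (FreeGroup.of l)).unop ((ract Y (FreeGroup.of l)⁻¹).unop u) = u := by
          rw [← ract_mul, inv_mul_cancel, map_one]
          rfl
        rw [mul_inv_cancel, hC1, h3, ih] at h1
        rw [mul_inv_cancel, hΦ1, h3] at h2
        linear_combination h2 - h1
      | mul a b ha hb =>
        intro u
        rw [hCm, hΦm, ha, hb]
    calc ∑ s : S, lam s (qb s) = ∑ s : S, Φ (w s) (qb s) := by
          refine Finset.sum_congr rfl fun s _ => ?_
          rw [← hCΦ, hCs]
      _ = ∑ i : α, C (FreeGroup.of i) (∑ s : S, LC (qb s) (D i (w s))) := by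
          simp only [Φ]
          rw [Finset.sum_comm]
          refine Finset.sum_congr rfl fun i _ => ?_
          rw [map_sum]
      _ = 0 := by
          refine Finset.sum_eq_zero fun i _ => ?_
          rw [hrel, map_zero]
  have hqb : qb s = 0 := by
    rw [← Module.forall_dual_apply_eq_zero_iff k]
    intro v
    have h1 := key (Pi.single s v)
    rw [Finset.sum_eq_single s] at h1
    · rwa [Pi.single_eq_same] at h1
    · intro j _ hj
      rw [Pi.single_eq_of_ne hj]
      rfl
    · intro h
      exact absurd (Finset.mem_univ s) h
  have h1 : q s = 0 := congrArg Subtype.val hqb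
  exact (Submodule.Quotient.mk_eq_zero P).1 h1

end

end Pool.Agent.Q24.PF
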