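import Pool.Agent.Q24.PF.Der2

set_option autoImplicit false

/-!
# The extension property implies that the subgroup is a free factor
-/

namespace Pool.Agent.Q24.PF

open Pool.Agent.Helper122.Cuts

theorem finite_of_fg {G S : Type} [Group G] (hG : Group.FG G) (e : G ≃* FreeGroup S) :
    Finite S := by
  classical
  have h1 : Finite (G →* Multiplicative (ZMod 2)) := finite_hom hG
  let f : S → (G →* Multiplicative (ZMod 2)) := fun s =>
    (FreeGroup.lift (fun t => if t = s then Multiplicative.ofAdd 1 else 1)).comp e.toMonoidHom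
  apply Finite.of_injective f
  intro s t hst
  have h2 := DFunLike.congr_fun hst (e.symm (FreeGroup.of s))
  have h3 : ∀ r : S, f r (e.symm (FreeGroup.of s)) =
      if s = r then Multiplicative.ofAdd (1 : ZMod 2) else 1 := by
    intro r
    simp [f]
  rw [h3, h3, if_pos rfl] at h2
  by_contra hne
  rw [if_neg hne] at h2
  have h4 : (1 : ZMod 2) = 0 := h2
  exact one_ne_zero h4

theorem tf_free (α : Type) : TF (FreeGroup α) := by
  intro g n hn hg
  rw [← one_pow (M := FreeGroup α) n] at hg
  exact pow_left_injective hn.ne' hg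

theorem lip_free (α : Type) (p : ℕ) [Fact p.Prime] : LIp (FreeGroup α) p := by
  classical
  intro K _ hK
  obtain ⟨S, hS⟩ := exists_bas_of_free (K := K) inferInstance
  obtain ⟨e, he⟩ := hS.retr
  have hne : S.Nonempty := by
    by_contra h
    rw [Set.not_nonempty_iff_eq_empty] at h
    apply hK
    rw [← hS.2, h, Subgroup.closure_empty]
  obtain ⟨s, hs⟩ := hne
  refine ⟨(FreeGroup.lift (fun _ => Multiplicative.ofAdd 1)).comp e.toMonoidHom, ?_⟩
  intro h
  have h2 := DFunLike.congr_fun h (e.symm (FreeGroup.of ⟨s, hs⟩))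
  simp only [MonoidHom.comp_apply, MulEquiv.toMonoidHom_eq_coe, MonoidHom.coe_coe,
    MulEquiv.apply_symm_apply, FreeGroup.lift_apply_of, MonoidHom.one_apply] at h2
  have h4 : (1 : ZMod p) = 0 := h2
  have : Nontrivial (ZMod p) := ZMod.nontrivial_iff.2 (Fact.out : p.Prime).one_lt.ne'
  exact one_ne_zero h4

theorem freeAct_self (F : Type) [Group F] : FreeAct F F := by
  intro a e h
  exact mul_eq_right.1 h

/-- **The extension property gives a free factor.** -/
theorem factor_of_ext {α : Type} [Finite α] (H : Subgroup (FreeGroup α)) (hfg : H.FG)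
    (hExt : Ext (FreeGroup α) H) :
    ∃ S T : Set (FreeGroup α), Bas S H ∧ Bas (S ∪ T) (⊤ : Subgroup (FreeGroup α)) := by
  classical
  have hp : Fact (Nat.Prime 2) := ⟨Nat.prime_two⟩
  obtain ⟨S, hS⟩ := exists_bas_of_free (K := H) inferInstance
  obtain ⟨e, he⟩ := hS.retr
  have hSf : Finite S := finite_of_fg ((Group.fg_iff_subgroup_fg H).2 hfg) e
  cases nonempty_fintype S
  have hSH : ∀ s : S, (s : FreeGroup α) ∈ H := by
    intro s
    rw [← hS.2]
    exact Subgroup.subset_closure s.2
  choose E hE hEv using fun s : S =>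
    (mem_vals (p := 2) _ _).1 (basis_mem_vals (p := 2) H hExt S hS s)
  let D : FreeGroup α → (FreeGroup α →₀ ZMod 2) := fun f =>
    (Finsupp.single f 1 - Finsupp.single 1 1) +
      -(∑ s : S, (rt (s : FreeGroup α) (E s f) + -(E s f)))
  have hD : IsDer D := by
    apply IsDer.add isDer_inner
    apply IsDer.neg
    apply isDer_sum
    intro s _
    exact IsDer.add (IsDer.rt (hE s) s) (IsDer.neg (hE s))
  have hDS : ∀ t : S, D t = 0 := by
    intro t
    simp only [D]
    have h1 : ∀ s : S, rt (s : FreeGroup α) (E s (t : FreeGroup α)) + -(E s (t : FreeGroup α)) =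
        if s = t then Finsupp.single (t : FreeGroup α) 1 - Finsupp.single 1 1 else 0 := by
      intro s
      rw [← hEv s t]
      by_cases h : s = t
      · subst h
        rw [if_pos rfl, Pi.single_eq_same, rt_single, one_mul]
        abel
      · rw [if_neg h, Pi.single_eq_of_ne (fun h' => h h'.symm), map_zero]
        simp
    rw [Finset.sum_congr rfl (fun s _ => h1 s), Finset.sum_ite_eq' Finset.univ t,
      if_pos (Finset.mem_univ t), add_neg_cancel]
  have hker : dker D hD = H := by
    apply le_antisymm
    · intro f hf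
      rw [mem_dker] at hf
      let π : (FreeGroup α →₀ ZMod 2) →ₗ[ZMod 2] ((FreeGroup α ⧸ H) →₀ ZMod 2) :=
        Finsupp.lmapDomain (ZMod 2) (ZMod 2) (fun x => (QuotientGroup.mk x : FreeGroup α ⧸ H))
      have hπs : ∀ (x : FreeGroup α) (a : ZMod 2), π (Finsupp.single x a) =
          Finsupp.single (QuotientGroup.mk x : FreeGroup α ⧸ H) a := by
        intro x a
        exact Finsupp.mapDomain_single
      have hπr : ∀ (s : S) (x : FreeGroup α →₀ ZMod 2), π (rt (s : FreeGroup α) x) = π x := by
        intro s x
        have : π ∘ₗ (rt (p := 2) (s : FreeGroup α)).toLinearMap = π := by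
          apply Finsupp.lhom_ext
          intro y a
          simp only [LinearMap.comp_apply, LinearEquiv.coe_coe]
          rw [rt_single, hπs, hπs]
          congr 1
          exact QuotientGroup.mk_mul_of_mem y (hSH s)
        exact LinearMap.congr_fun this x
      have h1 := congrArg π hf
      simp only [D] at h1
      rw [map_add, map_neg, map_sum, map_zero, map_sub, hπs, hπs] at h1
      have h2 : ∑ s : S, π (rt (s : FreeGroup α) (E s f) + -(E s f)) = 0 := by
        refine Finset.sum_eq_zero fun s _ => ?_
        rw [map_add, map_neg, hπr, add_neg_cancel]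
      rw [h2, neg_zero, add_zero, sub_eq_zero] at h1
      have h3 := Finsupp.single_left_injective (one_ne_zero : (1 : ZMod 2) ≠ 0) h1
      have h4 := QuotientGroup.eq.1 h3.symm
      simpa using h4
    · rw [← hS.2, Subgroup.closure_le]
      intro t ht
      exact hDS ⟨t, ht⟩
  have hKfg : (⊤ : Subgroup (FreeGroup α)).FG :=
    (Group.fg_iff_subgroup_fg _).1 (Group.fg_of_surjective
      (f := (Subgroup.topEquiv : (⊤ : Subgroup (FreeGroup α)) ≃* FreeGroup α).symm.toMonoidHom)
      (Subgroup.topEquiv : (⊤ : Subgroup (FreeGroup α)) ≃* FreeGroup α).symm.surjective)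
  have hfree : ∀ K : Subgroup (FreeGroup α), K.FG → ∃ S, Bas S K := by
    intro K _
    exact exists_bas_of_free inferInstance
  obtain ⟨_, T, hT⟩ := ker_factor (tf_free α) (lip_free α 2) (freeAct_self (FreeGroup α)) hfree
    hD _ ⊤ hKfg rfl
  rw [hker, inf_top_eq] at hT
  exact ⟨S, T, hS, hT S hS⟩

end Pool.Agent.Q24.PF
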