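import Pool.Agent.Q24.PF.Lew

set_option autoImplicit false

/-!
# Finitely generated subgroups of free groups: extension of the profinite topology (M. Hall)
-/

namespace Pool.Agent.Q24.PF

open Classical in
/-- **M. Hall**: every finite quotient of a finitely generated subgroup is seen by a finite quotient
of the free group. -/
theorem hall {α : Type} [Finite α] (H : Subgroup (FreeGroup α)) (hH : H.FG) (P : Type) [Group P]
    [Finite P] (σ : H →* P) :
    ∃ (M : Type) (_ : Group M) (_ : Finite M) (θ : FreeGroup α →* M),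
      ∀ h : H, θ h = 1 → σ h = 1 := by
  let F := FreeGroup α
  let k := ZMod 2
  have : Fact (Nat.Prime 2) := ⟨Nat.prime_two⟩
  let Q : Type := F × P → k
  let X : α → (Q ≃ₗ[k] Q) := fun i => LinearEquiv.funCongrLeft k k
    ((Equiv.mulLeft (FreeGroup.of i)).prodCongr (Equiv.refl P))
  have hX : ∀ (i : α) (u : Q) (f : F) (p : P), X i u (f, p) = u (FreeGroup.of i * f, p) :=
    fun i u f p => rfl
  have hXs : ∀ (i : α) (u : Q) (f : F) (p : P),
      (X i).symm u (f, p) = u ((FreeGroup.of i)⁻¹ * f, p) := fun i u f p => rfl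
  have hract : ∀ (g : F) (u : Q) (f : F) (p : P), (ract X g).unop u (f, p) = u (g * f, p) := by
    intro g
    induction g using FreeGroup.induction_on with
    | C1 =>
      intro u f p
      rw [map_one, one_mul]
      rfl
    | of i =>
      intro u f p
      unfold ract
      rw [FreeGroup.lift_apply_of]
      exact hX i u f p
    | inv_of i _ =>
      intro u f p
      unfold ract
      rw [map_inv, FreeGroup.lift_apply_of]
      exact hXs i u f p
    | mul a b ha hb =>
      intro u f p
      rw [ract_mul, hb, ha, mul_assoc]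
  let q : P → Q := fun p x => if h : x.1 ∈ H then (if x.2 = p * σ ⟨x.1, h⟩ then 1 else 0) else 0
  have hq : ∀ (h : H) (p : P), (ract X (h : F)).unop (q p) = q (p * σ h) := by
    intro h p
    funext x
    obtain ⟨f, p'⟩ := x
    rw [hract]
    simp only [q]
    by_cases hf : f ∈ H
    · have hf' : (h : F) * f ∈ H := H.mul_mem h.2 hf
      rw [dif_pos hf, dif_pos hf']
      have e : σ ⟨(h : F) * f, hf'⟩ = σ h * σ ⟨f, hf⟩ := by
        rw [← map_mul]
        rfl
      rw [e, mul_assoc]
    · have hf' : ¬ (h : F) * f ∈ H := fun h2 => hf ((H.mul_mem_cancel_left h.2).1 h2)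
      rw [dif_neg hf, dif_neg hf']
  have hqi : ∀ p p' : P, q p = q p' → p = p' := by
    intro p p' h
    have h1 := congrFun h (1, p)
    simp only [q] at h1
    rw [dif_pos H.one_mem, dif_pos H.one_mem] at h1
    have e : σ ⟨1, H.one_mem⟩ = 1 := map_one σ
    rw [e, mul_one, mul_one, if_pos rfl] at h1
    by_contra hne
    rw [if_neg hne] at h1
    exact one_ne_zero h1
  obtain ⟨S, hS⟩ := hH
  obtain ⟨n, hn⟩ : ∃ n : ℕ, ∀ s ∈ S, s.toWord.length ≤ n :=
    ⟨S.sup (fun s => s.toWord.length), fun s hs => Finset.le_sup (f := fun s : F => s.toWord.length) hs⟩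
  obtain ⟨W, hW, Y, hqW, hY⟩ := complete X q n
  have hWf : Finite W := Module.finite_of_finite k
  have hMf : Finite (W ≃ₗ[k] W) := Finite.of_injective (fun e : W ≃ₗ[k] W => (e : W → W))
    (fun e e' h => LinearEquiv.ext (fun x => congrFun h x))
  refine ⟨(W ≃ₗ[k] W)ᵐᵒᵖ, inferInstance, Finite.of_equiv _ MulOpposite.opEquiv, ract Y, ?_⟩
  have key : ∀ (f : F) (hf : f ∈ H), ∀ p : P,
      (ract Y f).unop ⟨q p, hqW p⟩ = ⟨q (p * σ ⟨f, hf⟩), hqW _⟩ := by
    intro f hf
    have hf2 : f ∈ Subgroup.closure (S : Set F) := by rwa [hS]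
    induction hf2 using Subgroup.closure_induction with
    | mem s hs =>
      intro p
      apply Subtype.ext
      have h1 := hY p s.toWord (hn s hs)
      have e : s = FreeGroup.mk s.toWord := FreeGroup.mk_toWord.symm
      have h2 : (ract Y s).unop ⟨q p, hqW p⟩ = wd Y s.toWord ⟨q p, hqW p⟩ := by
        conv_lhs => rw [e]
        exact ract_mk Y _ _
      have h3 : (ract X s).unop (q p) = wd X s.toWord (q p) := by
        conv_lhs => rw [e]
        exact ract_mk X _ _
      rw [h2, h1, ← h3]
      exact hq ⟨s, hf⟩ p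
    | one =>
      intro p
      rw [map_one]
      apply Subtype.ext
      have e : σ ⟨1, hf⟩ = 1 := map_one σ
      rw [e, mul_one]
      rfl
    | mul a b ha hb iha ihb =>
      intro p
      have ha' : a ∈ H := by rwa [hS] at ha
      have hb' : b ∈ H := by rwa [hS] at hb
      rw [ract_mul, iha ha', ihb hb']
      have e : σ ⟨a * b, hf⟩ = σ ⟨a, ha'⟩ * σ ⟨b, hb'⟩ := by
        rw [← map_mul]
        rfl
      apply Subtype.ext
      rw [e, mul_assoc]
    | inv a ha iha =>
      intro p
      have ha' : a ∈ H := by rwa [hS] at ha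
      have h1 := iha ha' (p * (σ ⟨a, ha'⟩)⁻¹)
      have e0 : σ ⟨a⁻¹, hf⟩ = (σ ⟨a, ha'⟩)⁻¹ := by
        rw [← map_inv]
        rfl
      have h2 : (⟨q (p * (σ ⟨a, ha'⟩)⁻¹ * σ ⟨a, ha'⟩), hqW _⟩ : W) = ⟨q p, hqW p⟩ := by
        apply Subtype.ext
        simp
      rw [h2] at h1
      rw [← h1, ← ract_mul, mul_inv_cancel, map_one]
      apply Subtype.ext
      rw [e0]
      rfl
  intro h hh
  have h1 := key h h.2 1
  rw [hh] at h1
  have h2 := congrArg Subtype.val h1
  have h3 : q 1 = q (1 * σ ⟨(h : F), h.2⟩) := h2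
  have h4 := hqi _ _ h3
  rw [one_mul] at h4
  exact h4.symm

end Pool.Agent.Q24.PF
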