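import Mathlib

set_option autoImplicit false

/-!
# Completion of finite dimensional pieces of modules over free group algebras
-/

namespace Pool.Agent.Q24.PF

section

variable {k Q α : Type} [Field k] [AddCommGroup Q] [Module k Q]

/-- a letter, acting from the right -/
def letter (X : α → (Q ≃ₗ[k] Q)) (y : α × Bool) : Q ≃ₗ[k] Q :=
  if y.2 then X y.1 else (X y.1).symm

/-- a word, acting from the right -/
def wd (X : α → (Q ≃ₗ[k] Q)) (L : List (α × Bool)) (u : Q) : Q :=
  L.foldl (fun u y => letter X y u) u

/-- the action of the free group from the right -/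
def ract (X : α → (Q ≃ₗ[k] Q)) : FreeGroup α →* (Q ≃ₗ[k] Q)ᵐᵒᵖ :=
  FreeGroup.lift (fun i => MulOpposite.op (X i))

theorem ract_mul (X : α → (Q ≃ₗ[k] Q)) (g h : FreeGroup α) (u : Q) :
    (ract X (g * h)).unop u = (ract X h).unop ((ract X g).unop u) := by
  rw [map_mul, MulOpposite.unop_mul]
  rfl

theorem ract_mk (X : α → (Q ≃ₗ[k] Q)) (L : List (α × Bool)) :
    ∀ u : Q, (ract X (FreeGroup.mk L)).unop u = wd X L u := by
  induction L with
  | nil =>
    intro u
    have : (FreeGroup.mk [] : FreeGroup α) = 1 := rfl
    rw [this, map_one]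
    rfl
  | cons y L ih =>
    intro u
    have e : (FreeGroup.mk (y :: L) : FreeGroup α) = FreeGroup.mk [y] * FreeGroup.mk L := by
      rw [FreeGroup.mul_mk]
      rfl
    rw [e, ract_mul, ih]
    have e2 : (ract X (FreeGroup.mk [y])).unop u = letter X y u := by
      unfold ract
      rw [FreeGroup.lift_mk]
      obtain ⟨i, b⟩ := y
      cases b
      · simp [letter]
      · simp [letter]
    rw [e2]
    rfl

theorem wd_append (X : α → (Q ≃ₗ[k] Q)) (L : List (α × Bool)) (y : α × Bool) (u : Q) :
    wd X (L ++ [y]) u = letter X y (wd X L u) := by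
  unfold wd
  rw [List.foldl_append]
  rfl

/-- **Completion** (after M. Hall and Lewin). -/
theorem complete [Finite α] {ι : Type} [Finite ι] (X : α → (Q ≃ₗ[k] Q)) (q : ι → Q) (n : ℕ) :
    ∃ (W : Submodule k Q) (_ : FiniteDimensional k W) (Y : α → (W ≃ₗ[k] W)) (hq : ∀ j, q j ∈ W),
      ∀ (j : ι) (L : List (α × Bool)), L.length ≤ n →
        ((wd Y L ⟨q j, hq j⟩ : W) : Q) = wd X L (q j) := by
  classical
  let I : Type := ι × {L : List (α × Bool) // L.length ≤ n}
  have hI : Finite I := by
    have : Finite {L : List (α × Bool) // L.length ≤ n} :=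
      (List.finite_length_le (α × Bool) n).to_subtype
    exact Finite.instProd
  let v : I → Q := fun i => wd X i.2.1 (q i.1)
  let W : Submodule k Q := Submodule.span k (Set.range v)
  have hW : FiniteDimensional k W := FiniteDimensional.span_of_finite k (Set.finite_range v)
  have hmem : ∀ (j : ι) (L : List (α × Bool)), L.length ≤ n → wd X L (q j) ∈ W := by
    intro j L hL
    exact Submodule.subset_span ⟨(j, ⟨L, hL⟩), rfl⟩
  have hY : ∀ i : α, ∃ Y : W ≃ₗ[k] W, ∀ w : W, ∀ _ : X i w ∈ W, ((Y w : W) : Q) = X i w := by
    intro i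
    let D1 : Submodule k W := (W.comap (X i).toLinearMap).comap W.subtype
    let D2 : Submodule k W := (W.comap (X i).symm.toLinearMap).comap W.subtype
    let e : D1 ≃ₗ[k] D2 :=
      { toFun := fun w => ⟨⟨X i w.1.1, w.2⟩, by
          change (X i).symm (X i w.1.1) ∈ W
          rw [LinearEquiv.symm_apply_apply]
          exact w.1.2⟩
        map_add' := fun x y => by
          apply Subtype.ext
          apply Subtype.ext
          simp
        map_smul' := fun c x => by
          apply Subtype.ext
          apply Subtype.ext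
          simp
        invFun := fun w => ⟨⟨(X i).symm w.1.1, w.2⟩, by
          change X i ((X i).symm w.1.1) ∈ W
          rw [LinearEquiv.apply_symm_apply]
          exact w.1.2⟩
        left_inv := fun w => by
          apply Subtype.ext
          apply Subtype.ext
          simp
        right_inv := fun w => by
          apply Subtype.ext
          apply Subtype.ext
          simp }
    obtain ⟨g, hg⟩ := Submodule.exists_linearEquiv_restrict_eq e
    refine ⟨g, fun w hw => ?_⟩
    have := hg ⟨w, hw⟩
    rw [← this]
    rfl
  choose Y hYX using hY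
  have hYs : ∀ (i : α) (w : W), ∀ h : (X i).symm w ∈ W, (((Y i).symm w : W) : Q) = (X i).symm w := by
    intro i w h
    have h1 := hYX i ⟨(X i).symm w, h⟩ (by
      rw [LinearEquiv.apply_symm_apply]
      exact w.2)
    have h2 : Y i ⟨(X i).symm w, h⟩ = w := by
      apply Subtype.ext
      rw [h1, LinearEquiv.apply_symm_apply]
    have h3 : (Y i).symm w = ⟨(X i).symm w, h⟩ := by
      rw [LinearEquiv.symm_apply_eq]
      exact h2.symm
    rw [h3]
  have hlet : ∀ (y : α × Bool) (w : W), letter X y w ∈ W →
      ((letter Y y w : W) : Q) = letter X y w := by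
    rintro ⟨i, b⟩ w h
    cases b
    · exact hYs i w h
    · exact hYX i w h
  refine ⟨W, hW, Y, fun j => hmem j [] (Nat.zero_le n), ?_⟩
  intro j L
  induction L using List.reverseRecOn with
  | nil =>
    intro _
    rfl
  | append_singleton L y ih =>
    intro hL
    have hL' : L.length ≤ n := by
      rw [List.length_append] at hL
      omega
    have h1 := ih hL'
    rw [wd_append, wd_append, ← h1]
    apply hlet
    rw [h1, ← wd_append]
    exact hmem j _ hL

end

end Pool.Agent.Q24.PF
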