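import Pool.Agent.Q24.PF.Hal
import Pool.Agent.Q24.PF.Der

set_option autoImplicit false

/-!
# Piles
-/

namespace Pool.Agent.Q24.PF

/-- A continuous action `t ^ g = act t g` from the right of the topological group `G` on the
space `T`; a pile if `G` and `T` are profinite. -/
structure Pile (G T : Type) [Group G] [TopologicalSpace G] [TopologicalSpace T] where
  act : T → G → T
  act_one : ∀ t, act t 1 = t
  act_mul : ∀ t g h, act t (g * h) = act (act t g) h
  cont : Continuous (fun x : T × G => act x.1 x.2)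

namespace Pile

variable {G T : Type} [Group G] [TopologicalSpace G] [TopologicalSpace T]

theorem act_inv_act (𝒢 : Pile G T) (t : T) (g : G) : 𝒢.act (𝒢.act t g) g⁻¹ = t := by
  rw [← 𝒢.act_mul, mul_inv_cancel, 𝒢.act_one]

/-- the stabilizer -/
def stab (𝒢 : Pile G T) (t : T) : Subgroup G where
  carrier := {g | 𝒢.act t g = t}
  one_mem' := 𝒢.act_one t
  mul_mem' := by
    intro a b ha hb
    have ha' : 𝒢.act t a = t := ha
    have hb' : 𝒢.act t b = t := hb
    change 𝒢.act t (a * b) = t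
    rw [𝒢.act_mul, ha', hb']
  inv_mem' := by
    intro a ha
    have ha' : 𝒢.act t a = t := ha
    have := 𝒢.act_inv_act t a
    rwa [ha'] at this

theorem mem_stab (𝒢 : Pile G T) (t : T) (g : G) : g ∈ 𝒢.stab t ↔ 𝒢.act t g = t := Iff.rfl

end Pile

/-- Morphisms of piles. -/
structure Mor {G T A X : Type} [Group G] [TopologicalSpace G] [TopologicalSpace T]
    [Group A] [TopologicalSpace A] [TopologicalSpace X] (𝒢 : Pile G T) (𝒜 : Pile A X) where
  hom : G →* A
  map : T → X
  hom_cont : Continuous hom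
  map_cont : Continuous map
  equivariant : ∀ t g, map (𝒢.act t g) = 𝒜.act (map t) (hom g)

/-- Epimorphisms of piles. -/
def IsEpi {B Y A X : Type} [Group B] [TopologicalSpace B] [TopologicalSpace Y]
    [Group A] [TopologicalSpace A] [TopologicalSpace X] {ℬ : Pile B Y} {𝒜 : Pile A X}
    (α : Mor ℬ 𝒜) : Prop :=
  Function.Surjective α.hom ∧ Function.Surjective α.map ∧
    ∀ x, ∃ y, α.map y = x ∧ (ℬ.stab y).map α.hom = 𝒜.stab x

/-- Rigid morphisms of piles (finite ones, or profinite ones): isomorphisms on the stabilizers and a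
bijection of the orbit spaces. -/
def IsRigid {B Y A X : Type} [Group B] [TopologicalSpace B] [TopologicalSpace Y]
    [Group A] [TopologicalSpace A] [TopologicalSpace X] {ℬ : Pile B Y} {𝒜 : Pile A X}
    (α : Mor ℬ 𝒜) : Prop :=
  (∀ y, Set.BijOn α.hom (ℬ.stab y) (𝒜.stab (α.map y))) ∧
    (∀ x, ∃ y a, 𝒜.act (α.map y) a = x) ∧
    ∀ y y' a, α.map y' = 𝒜.act (α.map y) a → ∃ b, y' = ℬ.act y b

/-- Projective piles: all finite rigid embedding problems have a solution. -/
def IsProjective {G T : Type} [Group G] [TopologicalSpace G] [TopologicalSpace T]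
    (𝒢 : Pile G T) : Prop :=
  ∀ (A X B Y : Type) [Group A] [TopologicalSpace A] [DiscreteTopology A] [Finite A]
    [TopologicalSpace X] [DiscreteTopology X] [Finite X]
    [Group B] [TopologicalSpace B] [DiscreteTopology B] [Finite B]
    [TopologicalSpace Y] [DiscreteTopology Y] [Finite Y]
    (𝒜 : Pile A X) (ℬ : Pile B Y) (φ : Mor 𝒢 𝒜) (α : Mor ℬ 𝒜), IsEpi α → IsRigid α →
      ∃ γ : Mor 𝒢 ℬ, (∀ g, α.hom (γ.hom g) = φ.hom g) ∧ ∀ t, α.map (γ.map t) = φ.map t

section block

variable {G T : Type} [Group G] [TopologicalSpace G] [TopologicalSpace T] [IsTopologicalGroup G]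
  [CompactSpace G] [CompactSpace T] [T2Space T] [TotallyDisconnectedSpace T]

theorem exists_block (𝒢 : Pile G T) (t : T) (G₁ : Subgroup G) (hG₁ : IsOpen (G₁ : Set G))
    (hle : 𝒢.stab t ≤ G₁) :
    ∃ W : Set T, IsClopen W ∧ t ∈ W ∧ ∀ w ∈ W, ∀ g, 𝒢.act w g ∈ W ↔ g ∈ G₁ := by
  have hG₁c : IsClosed (G₁ : Set G) := Subgroup.isClosed_of_isOpen G₁ hG₁
  have hct : Continuous (fun g => 𝒢.act t g) := 𝒢.cont.comp (continuous_const.prodMk continuous_id)
  have hC1 : IsClosed ((fun g => 𝒢.act t g) '' (G₁ : Set G)) :=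
    (hG₁c.isCompact.image hct).isClosed
  have hC2 : IsClosed ((fun g => 𝒢.act t g) '' (G₁ : Set G)ᶜ) :=
    (hG₁.isClosed_compl.isCompact.image hct).isClosed
  obtain ⟨U, hU, hU1, hU2⟩ := exists_clopen_of_closed_subset_open hC1 hC2.isOpen_compl (by
    rintro _ ⟨g, hg, rfl⟩ ⟨g', hg', he⟩
    apply hg'
    have he' : 𝒢.act t g' = 𝒢.act t g := he
    have h1 : g' * g⁻¹ ∈ 𝒢.stab t := by
      rw [𝒢.mem_stab, 𝒢.act_mul, he', 𝒢.act_inv_act]
    have h2 := G₁.mul_mem (hle h1) hg
    rwa [inv_mul_cancel_right] at h2)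
  let W : Set T := {w | (∀ g ∈ G₁, 𝒢.act w g ∈ U) ∧ ∀ g ∉ G₁, 𝒢.act w g ∉ U}
  refine ⟨W, ⟨?_, ?_⟩, ?_, ?_⟩
  · have e : W = (⋂ g ∈ G₁, {w | 𝒢.act w g ∈ U}) ∩ ⋂ g ∉ G₁, {w | 𝒢.act w g ∈ Uᶜ} := by
      ext w
      simp only [W, Set.mem_ofPred_eq, Set.mem_inter_iff, Set.mem_iInter, Set.mem_compl_iff]
    rw [e]
    have hcg : ∀ g : G, Continuous (fun w => 𝒢.act w g) := fun g =>
      𝒢.cont.comp (continuous_id.prodMk continuous_const)
    apply IsClosed.inter
    · exact isClosed_biInter fun g _ => hU.isClosed.preimage (hcg g)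
    · exact isClosed_biInter fun g _ => hU.compl.isClosed.preimage (hcg g)
  · have e : Wᶜ = (Prod.fst '' {x : T × G | x.2 ∈ G₁ ∧ 𝒢.act x.1 x.2 ∈ Uᶜ}) ∪
        (Prod.fst '' {x : T × G | x.2 ∈ (G₁ : Set G)ᶜ ∧ 𝒢.act x.1 x.2 ∈ U}) := by
      ext w
      constructor
      · intro hw
        by_contra hno
        apply hw
        constructor
        · intro g hg
          by_contra h
          exact hno (Or.inl ⟨(w, g), ⟨hg, h⟩, rfl⟩)
        · intro g hg h
          exact hno (Or.inr ⟨(w, g), ⟨hg, h⟩, rfl⟩)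
      · rintro (⟨⟨w, g⟩, ⟨hg, h⟩, rfl⟩ | ⟨⟨w, g⟩, ⟨hg, h⟩, rfl⟩) hw
        · exact h (hw.1 g hg)
        · exact hw.2 g hg h
    rw [← isClosed_compl_iff, e]
    have h1 : IsClosed {x : T × G | x.2 ∈ G₁ ∧ 𝒢.act x.1 x.2 ∈ Uᶜ} :=
      (hG₁c.preimage continuous_snd).inter (hU.compl.isClosed.preimage 𝒢.cont)
    have h2 : IsClosed {x : T × G | x.2 ∈ (G₁ : Set G)ᶜ ∧ 𝒢.act x.1 x.2 ∈ U} :=
      (hG₁.isClosed_compl.preimage continuous_snd).inter (hU.isClosed.preimage 𝒢.cont)
    exact (h1.isCompact.image continuous_fst).isClosed.union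
      (h2.isCompact.image continuous_fst).isClosed
  · constructor
    · intro g hg
      exact hU1 ⟨g, hg, rfl⟩
    · intro g hg h
      exact hU2 h ⟨g, hg, rfl⟩
  · rintro w ⟨hw1, hw2⟩ g
    constructor
    · rintro ⟨h1, _⟩
      by_contra hg
      have h3 := h1 1 G₁.one_mem
      rw [𝒢.act_one] at h3
      exact hw2 g hg h3
    · intro hg
      constructor
      · intro g' hg'
        rw [← 𝒢.act_mul]
        exact hw1 _ (G₁.mul_mem hg hg')
      · intro g' hg'
        rw [← 𝒢.act_mul]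
        exact hw2 _ (fun h => hg' ((G₁.mul_mem_cancel_left hg).1 h))

end block

section coset

/-- the pile of an action of a discrete group -/
def ofAct (A X : Type) [Group A] [TopologicalSpace A] [DiscreteTopology A] [TopologicalSpace X]
    [DiscreteTopology X] [MulAction A X] : Pile A X where
  act x a := a⁻¹ • x
  act_one x := by rw [inv_one, one_smul]
  act_mul x a b := by rw [mul_inv_rev, mul_smul]
  cont := continuous_of_discreteTopology

/-- the map of the cosets -/
def cmap {A B : Type} [Group A] [Group B] (α : B →* A) (S : Subgroup B) (A' : Subgroup A)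
    (h : S ≤ A'.comap α) : B ⧸ S → A ⧸ A' :=
  Quotient.map' α (by
    intro a b hab
    rw [QuotientGroup.leftRel_apply] at hab ⊢
    rw [← map_inv, ← map_mul]
    exact h hab)

theorem cmap_mk {A B : Type} [Group A] [Group B] (α : B →* A) (S : Subgroup B) (A' : Subgroup A)
    (h : S ≤ A'.comap α) (b : B) :
    cmap α S A' h (QuotientGroup.mk b) = QuotientGroup.mk (α b) := rfl

variable {A B : Type} [Group A] [TopologicalSpace A] [DiscreteTopology A]
  [Group B] [TopologicalSpace B] [DiscreteTopology B] (α : B →* A)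
  (S : Bool → Subgroup B) (A' : Bool → Subgroup A)
  [TopologicalSpace (Σ i, B ⧸ S i)] [DiscreteTopology (Σ i, B ⧸ S i)]
  [TopologicalSpace (Σ i, A ⧸ A' i)] [DiscreteTopology (Σ i, A ⧸ A' i)]

/-- the morphism of the coset piles -/
def cosetMor (h : ∀ i, S i ≤ (A' i).comap α) :
    Mor (ofAct B (Σ i, B ⧸ S i)) (ofAct A (Σ i, A ⧸ A' i)) where
  hom := α
  map := Sigma.map id (fun i => cmap α (S i) (A' i) (h i))
  hom_cont := continuous_of_discreteTopology
  map_cont := continuous_of_discreteTopology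
  equivariant := by
    rintro ⟨i, y⟩ b
    induction y using QuotientGroup.induction_on with
    | H c =>
      change (⟨i, QuotientGroup.mk (α (b⁻¹ * c))⟩ : Σ i, A ⧸ A' i) =
        ⟨i, QuotientGroup.mk ((α b)⁻¹ * α c)⟩
      rw [map_mul, map_inv]

theorem cosetMor_rigid (hα : Function.Surjective α)
    (hb : ∀ i, Set.BijOn α (S i) (A' i)) :
    IsEpi (cosetMor α S A' (fun i s hs => (hb i).mapsTo hs)) ∧
      IsRigid (cosetMor α S A' (fun i s hs => (hb i).mapsTo hs)) := by
  have hstabB : ∀ (i : Bool) (b b' : B),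
      b' ∈ (ofAct B (Σ i, B ⧸ S i)).stab ⟨i, QuotientGroup.mk b⟩ ↔ b⁻¹ * b' * b ∈ S i := by
    intro i b b'
    rw [Pile.mem_stab]
    change (⟨i, QuotientGroup.mk (b'⁻¹ * b)⟩ : Σ i, B ⧸ S i) = ⟨i, QuotientGroup.mk b⟩ ↔ _
    rw [Sigma.mk.injEq]
    simp only [heq_eq_eq, true_and]
    rw [QuotientGroup.eq]
    have e : (b'⁻¹ * b)⁻¹ * b = b⁻¹ * b' * b := by group
    rw [e]
  have hstabA : ∀ (i : Bool) (b b' : A),
      b' ∈ (ofAct A (Σ i, A ⧸ A' i)).stab ⟨i, QuotientGroup.mk b⟩ ↔ b⁻¹ * b' * b ∈ A' i := by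
    intro i b b'
    rw [Pile.mem_stab]
    change (⟨i, QuotientGroup.mk (b'⁻¹ * b)⟩ : Σ i, A ⧸ A' i) = ⟨i, QuotientGroup.mk b⟩ ↔ _
    rw [Sigma.mk.injEq]
    simp only [heq_eq_eq, true_and]
    rw [QuotientGroup.eq]
    have e : (b'⁻¹ * b)⁻¹ * b = b⁻¹ * b' * b := by group
    rw [e]
  have hbij : ∀ y : Σ i, B ⧸ S i, Set.BijOn α ((ofAct B (Σ i, B ⧸ S i)).stab y)
      ((ofAct A (Σ i, A ⧸ A' i)).stab
        ((cosetMor α S A' (fun i s hs => (hb i).mapsTo hs)).map y)) := by
    rintro ⟨i, y⟩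
    induction y using QuotientGroup.induction_on with
    | H b =>
      have hm : (cosetMor α S A' (fun i s hs => (hb i).mapsTo hs)).map ⟨i, QuotientGroup.mk b⟩ =
        ⟨i, QuotientGroup.mk (α b)⟩ := rfl
      rw [hm]
      refine ⟨?_, ?_, ?_⟩
      · intro b' hb'
        have h1 := (hstabB i b b').1 hb'
        refine (hstabA i (α b) (α b')).2 ?_
        have h2 := (hb i).mapsTo h1
        rwa [map_mul, map_mul, map_inv] at h2
      · intro b' hb' b'' hb'' he
        have h1 := (hstabB i b b').1 hb'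
        have h2 := (hstabB i b b'').1 hb''
        have h3 := (hb i).injOn h1 h2 (by
          rw [map_mul, map_mul, map_mul, map_mul, he])
        exact mul_left_cancel (mul_right_cancel h3)
      · intro a ha
        have h1 := (hstabA i (α b) a).1 ha
        obtain ⟨s, hs, hs2⟩ := (hb i).surjOn h1
        refine ⟨b * s * b⁻¹, (hstabB i b _).2 ?_, ?_⟩
        · have e : b⁻¹ * (b * s * b⁻¹) * b = s := by group
          rw [e]
          exact hs
        · rw [map_mul, map_mul, map_inv, hs2]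
          group
  have hsurj : Function.Surjective
      (cosetMor α S A' (fun i s hs => (hb i).mapsTo hs)).map := by
    rintro ⟨i, x⟩
    induction x using QuotientGroup.induction_on with
    | H a =>
      obtain ⟨b, rfl⟩ := hα a
      exact ⟨⟨i, QuotientGroup.mk b⟩, rfl⟩
  refine ⟨⟨hα, hsurj, ?_⟩, hbij, ?_, ?_⟩
  · intro x
    obtain ⟨y, hy⟩ := hsurj x
    refine ⟨y, hy, ?_⟩
    apply SetLike.coe_injective
    rw [Subgroup.coe_map, ← hy]
    exact (hbij y).image_eq
  · intro x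
    obtain ⟨y, hy⟩ := hsurj x
    exact ⟨y, 1, by rw [Pile.act_one, hy]⟩
  · rintro ⟨i, y⟩ ⟨i', y'⟩ a h
    induction y using QuotientGroup.induction_on with
    | H b =>
      induction y' using QuotientGroup.induction_on with
      | H b' =>
        have hi : i' = i := congrArg Sigma.fst h
        subst hi
        refine ⟨b * b'⁻¹, ?_⟩
        change (⟨i', QuotientGroup.mk b'⟩ : Σ i, B ⧸ S i) =
          ⟨i', QuotientGroup.mk ((b * b'⁻¹)⁻¹ * b)⟩
        have e : (b * b'⁻¹)⁻¹ * b = b' := by group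
        rw [e]

end coset

end Pool.Agent.Q24.PF
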