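import Pool.Agent.Q24.PF.Pil

set_option autoImplicit false

/-!
# Point stabilizers of projective piles have the extension property
-/

namespace Pool.Agent.Q24.PF

theorem ext_of_pile {α : Type} [Finite α] {G T : Type} [Group G] [TopologicalSpace G]
    [IsTopologicalGroup G] [CompactSpace G] [TopologicalSpace T] [CompactSpace T] [T2Space T]
    [TotallyDisconnectedSpace T] (𝒢 : Pile G T) (h𝒢 : IsProjective 𝒢) (j : FreeGroup α →* G)
    (hj : ∀ (Q : Type) [Group Q] [Finite Q] (φ : FreeGroup α →* Q),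
      ∃ ψ : G →* Q, (∀ f, ψ (j f) = φ f) ∧ IsOpen (ψ.ker : Set G))
    (H : Subgroup (FreeGroup α)) (hH : H.FG) (t : T)
    (ht : (𝒢.stab t : Set G) = closure (j '' (H : Set (FreeGroup α)))) :
    Ext (FreeGroup α) H := by
  classical
  intro P Q _ _ _ _ q hq ρ σ hσ
  -- a lift
  choose sec hsec using hq
  let τ0 : FreeGroup α →* P := FreeGroup.lift (fun i => sec (ρ (FreeGroup.of i)))
  have hτ0 : ∀ f, q (τ0 f) = ρ f := by
    have : q.comp τ0 = ρ := by
      apply FreeGroup.ext_hom
      intro i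
      rw [MonoidHom.comp_apply]
      simp only [τ0, FreeGroup.lift_apply_of]
      exact hsec _
    exact fun f => DFunLike.congr_fun this f
  obtain ⟨M, _, _, θ, hθ⟩ := hall H hH P σ
  let θ' : FreeGroup α →* M × P := θ.prod τ0
  let A := θ'.range
  have hA : Finite A := inferInstance
  let φ0 : FreeGroup α →* A := θ'.rangeRestrict
  have hφ0 : Function.Surjective φ0 := θ'.rangeRestrict_surjective
  obtain ⟨ψ, hψ, hψo⟩ := hj A φ0
  have hψs : Function.Surjective ψ := by
    intro a
    obtain ⟨f, hf⟩ := hφ0 a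
    exact ⟨j f, by rw [hψ, hf]⟩
  let tA : TopologicalSpace A := ⊥
  have dA : DiscreteTopology A := ⟨rfl⟩
  have hψc : Continuous ψ := by
    rw [continuous_discrete_rng]
    intro a
    obtain ⟨g, rfl⟩ := hψs a
    have e : ψ ⁻¹' {ψ g} = (fun x => g⁻¹ * x) ⁻¹' (ψ.ker : Set G) := by
      ext x
      rw [Set.mem_preimage, Set.mem_singleton_iff, Set.mem_preimage, SetLike.mem_coe,
        MonoidHom.mem_ker, map_mul, map_inv, inv_mul_eq_one, eq_comm]
    rw [e]
    exact hψo.preimage (continuous_const_mul _)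
  let A0 : Subgroup A := H.map φ0
  let G₁ : Subgroup G := A0.comap ψ
  have hG₁ : IsOpen (G₁ : Set G) := (isOpen_discrete (A0 : Set A)).preimage hψc
  have hle : 𝒢.stab t ≤ G₁ := by
    intro g hg
    have hg' : g ∈ closure (j '' (H : Set (FreeGroup α))) := by
      rw [← ht]
      exact hg
    have h1 : (ψ ⁻¹' {ψ g}) ∈ nhds g :=
      ((isOpen_discrete {ψ g}).preimage hψc).mem_nhds rfl
    obtain ⟨_, h2, f, hf, rfl⟩ := mem_closure_iff_nhds.1 hg' _ h1
    refine ⟨f, hf, ?_⟩
    rw [← hψ]
    exact h2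
  obtain ⟨W, hW, htW, hWG⟩ := exists_block 𝒢 t G₁ hG₁ hle
  -- the finite piles
  let B : Subgroup (P × A) := (q.comp (MonoidHom.fst P A)).eqLocus
    ((q.comp (MonoidHom.snd M P)).comp (A.subtype.comp (MonoidHom.snd P A)))
  have hB : ∀ b : P × A, b ∈ B ↔ q b.1 = q b.2.1.2 := fun b => Iff.rfl
  let tB : TopologicalSpace B := ⊥
  have dB : DiscreteTopology B := ⟨rfl⟩
  let al : B →* A := (MonoidHom.snd P A).comp B.subtype
  have hal : Function.Surjective al := fun a => ⟨⟨(a.1.2, a), rfl⟩, rfl⟩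
  let s1 : H →* B := (σ.prod (φ0.comp H.subtype)).codRestrict B (by
    intro h
    rw [hB]
    change q (σ h) = q (τ0 h)
    rw [hσ, hτ0])
  let s0 : A →* B := (((MonoidHom.snd M P).comp A.subtype).prod (MonoidHom.id A)).codRestrict B
    (fun a => rfl)
  let S : Bool → Subgroup B := fun i => if i = true then s1.range else s0.range
  let A' : Bool → Subgroup A := fun i => if i = true then A0 else ⊤
  have hs1 : ∀ h h' : H, φ0 h = φ0 h' → σ h = σ h' := by
    intro h h' he
    have h1 : θ (h : FreeGroup α) = θ (h' : FreeGroup α) :=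
      congrArg (fun a : A => a.1.1) he
    have h2 := hθ (h⁻¹ * h') (by
      change θ ((h : FreeGroup α)⁻¹ * (h' : FreeGroup α)) = 1
      rw [map_mul, map_inv, h1, inv_mul_cancel])
    rw [map_mul, map_inv, inv_mul_eq_one] at h2
    exact h2
  have hbij : ∀ i, Set.BijOn al (S i) (A' i) := by
    intro i
    cases i
    · change Set.BijOn al (s0.range : Set B) ((⊤ : Subgroup A) : Set A)
      refine ⟨fun _ _ => trivial, ?_, ?_⟩
      · rintro _ ⟨a, rfl⟩ _ ⟨a', rfl⟩ h
        have : a = a' := h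
        rw [this]
      · intro a _
        exact ⟨s0 a, ⟨a, rfl⟩, rfl⟩
    · change Set.BijOn al (s1.range : Set B) (A0 : Set A)
      refine ⟨?_, ?_, ?_⟩
      · rintro _ ⟨h, rfl⟩
        exact ⟨h, h.2, rfl⟩
      · rintro _ ⟨h, rfl⟩ _ ⟨h', rfl⟩ he
        have he' : φ0 h = φ0 h' := he
        apply Subtype.ext
        change (σ h, φ0 h) = (σ h', φ0 h')
        rw [he', hs1 h h' he']
      · rintro _ ⟨f, hf, rfl⟩
        exact ⟨s1 ⟨f, hf⟩, ⟨⟨f, hf⟩, rfl⟩, rfl⟩
  let tX : TopologicalSpace (Σ i, A ⧸ A' i) := ⊥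
  have dX : DiscreteTopology (Σ i, A ⧸ A' i) := ⟨rfl⟩
  let tY : TopologicalSpace (Σ i, B ⧸ S i) := ⊥
  have dY : DiscreteTopology (Σ i, B ⧸ S i) := ⟨rfl⟩
  obtain ⟨hepi, hrig⟩ := cosetMor_rigid al S A' hal hbij
  -- the morphism to the finite pile
  let f' : T → Σ i, A ⧸ A' i := fun w =>
    if h : ∃ g, 𝒢.act w g ∈ W then ⟨true, QuotientGroup.mk (ψ h.choose)⟩
    else ⟨false, QuotientGroup.mk 1⟩
  have hf'1 : ∀ w g, 𝒢.act w g ∈ W → f' w = ⟨true, QuotientGroup.mk (ψ g)⟩ := by
    intro w g hg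
    have h : ∃ g, 𝒢.act w g ∈ W := ⟨g, hg⟩
    simp only [f']
    rw [dif_pos h]
    congr 1
    rw [QuotientGroup.eq, ← map_inv, ← map_mul]
    have h1 := h.choose_spec
    have h2 : 𝒢.act (𝒢.act w h.choose) (h.choose⁻¹ * g) ∈ W := by
      rw [← 𝒢.act_mul, mul_inv_cancel_left]
      exact hg
    exact (hWG _ h1 _).1 h2
  have hf'0 : ∀ w, (¬ ∃ g, 𝒢.act w g ∈ W) → f' w = ⟨false, QuotientGroup.mk 1⟩ := by
    intro w h
    simp only [f']
    rw [dif_neg h]
  have hsub : ∀ a b : A ⧸ A' false, a = b := by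
    intro a b
    induction a using QuotientGroup.induction_on with
    | H a =>
      induction b using QuotientGroup.induction_on with
      | H b =>
        rw [QuotientGroup.eq]
        change a⁻¹ * b ∈ (⊤ : Subgroup A)
        exact Subgroup.mem_top _
  let φ : Mor 𝒢 (ofAct A (Σ i, A ⧸ A' i)) :=
    { hom := ψ
      map := f'
      hom_cont := hψc
      map_cont := by
        rw [continuous_discrete_rng]
        have hcg : ∀ g : G, Continuous (fun w => 𝒢.act w g) := fun g =>
          𝒢.cont.comp (continuous_id.prodMk continuous_const)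
        rintro ⟨i, c⟩
        cases i
        · have e : f' ⁻¹' {⟨false, c⟩} = (Prod.fst '' {x : T × G | 𝒢.act x.1 x.2 ∈ W})ᶜ := by
            ext w
            rw [Set.mem_preimage, Set.mem_singleton_iff, Set.mem_compl_iff]
            constructor
            · rintro h ⟨⟨w', g⟩, hg, rfl⟩
              have h1 := hf'1 w' g hg
              rw [h1] at h
              have h2 : true = false := congrArg Sigma.fst h
              exact Bool.noConfusion h2
            · intro h
              rw [hf'0 w (fun ⟨g, hg⟩ => h ⟨(w, g), hg, rfl⟩)]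
              congr 1
              exact hsub _ _
          rw [e]
          exact (((hW.isClosed.preimage 𝒢.cont).isCompact.image continuous_fst).isClosed).isOpen_compl
        · induction c using QuotientGroup.induction_on with
          | H a =>
            obtain ⟨g, rfl⟩ := hψs a
            have e : f' ⁻¹' {⟨true, QuotientGroup.mk (ψ g)⟩} = (fun w => 𝒢.act w g) ⁻¹' W := by
              ext w
              rw [Set.mem_preimage, Set.mem_singleton_iff, Set.mem_preimage]
              constructor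
              · intro h
                by_cases h0 : ∃ g', 𝒢.act w g' ∈ W
                · obtain ⟨g', hg'⟩ := h0
                  rw [hf'1 w g' hg', Sigma.mk.injEq] at h
                  have h2 := eq_of_heq h.2
                  rw [QuotientGroup.eq, ← map_inv, ← map_mul] at h2
                  have h3 := (hWG _ hg' (g'⁻¹ * g)).2 h2
                  rwa [← 𝒢.act_mul, mul_inv_cancel_left] at h3
                · rw [hf'0 w h0] at h
                  have h2 : false = true := congrArg Sigma.fst h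
                  exact Bool.noConfusion h2
              · intro h
                exact hf'1 w g h
            rw [e]
            exact hW.isOpen.preimage (hcg g)
      equivariant := by
        intro w g
        by_cases h0 : ∃ g', 𝒢.act w g' ∈ W
        · obtain ⟨g', hg'⟩ := h0
          have h1 : 𝒢.act (𝒢.act w g) (g⁻¹ * g') ∈ W := by
            rw [← 𝒢.act_mul, mul_inv_cancel_left]
            exact hg'
          rw [hf'1 _ _ h1, hf'1 _ _ hg', map_mul, map_inv]
          rfl
        · have h1 : ¬ ∃ g', 𝒢.act (𝒢.act w g) g' ∈ W := by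
            rintro ⟨g', hg'⟩
            rw [← 𝒢.act_mul] at hg'
            exact h0 ⟨_, hg'⟩
          rw [hf'0 _ h1, hf'0 _ h0]
          change (⟨false, _⟩ : Σ i, A ⧸ A' i) = ⟨false, _⟩
          congr 1
          exact hsub _ _ }
  obtain ⟨γ, hγ1, hγ2⟩ := h𝒢 A (Σ i, A ⧸ A' i) B (Σ i, B ⧸ S i) (ofAct A (Σ i, A ⧸ A' i))
    (ofAct B (Σ i, B ⧸ S i)) φ _ hepi hrig
  -- the point over `t`
  obtain ⟨b, hb1, hb2⟩ : ∃ b : B, γ.map t = ⟨true, QuotientGroup.mk b⟩ ∧ al b = 1 := by
    have h1 := hγ2 t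
    have h2 : φ.map t = ⟨true, QuotientGroup.mk (ψ 1)⟩ := hf'1 t 1 (by rw [𝒢.act_one]; exact htW)
    rw [h2] at h1
    generalize γ.map t = yy at h1 ⊢
    obtain ⟨i, y⟩ := yy
    have hi : i = true := congrArg Sigma.fst h1
    subst hi
    induction y using QuotientGroup.induction_on with
    | H b =>
      have h3 : (⟨true, QuotientGroup.mk (al b)⟩ : Σ i, A ⧸ A' i) =
        ⟨true, QuotientGroup.mk (ψ 1)⟩ := h1
      rw [Sigma.mk.injEq] at h3
      have h4 := eq_of_heq h3.2
      rw [map_one, eq_comm, QuotientGroup.eq, inv_one, one_mul] at h4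
      obtain ⟨s, hs, hs2⟩ := (hbij true).surjOn h4
      refine ⟨b * s⁻¹, ?_, ?_⟩
      · congr 1
        rw [QuotientGroup.eq]
        have e : b⁻¹ * (b * s⁻¹) = s⁻¹ := by group
        rw [e]
        exact (S true).inv_mem hs
      · rw [map_mul, map_inv, hs2, mul_inv_cancel]
  have hkey : ∀ h : H, ∃ h' : H, b⁻¹ * γ.hom (j h) * b = s1 h' := by
    intro h
    have h1 : j h ∈ 𝒢.stab t := by
      have : j (h : FreeGroup α) ∈ (𝒢.stab t : Set G) := by
        rw [ht]
        exact subset_closure ⟨h, h.2, rfl⟩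
      exact this
    have h2 := γ.equivariant t (j h)
    rw [(𝒢.mem_stab _ _).1 h1, hb1] at h2
    have h3 : (⟨true, QuotientGroup.mk b⟩ : Σ i, B ⧸ S i) =
      ⟨true, QuotientGroup.mk ((γ.hom (j h))⁻¹ * b)⟩ := h2
    rw [Sigma.mk.injEq] at h3
    have h4 := eq_of_heq h3.2
    rw [eq_comm, QuotientGroup.eq] at h4
    have e : ((γ.hom (j h))⁻¹ * b)⁻¹ * b = b⁻¹ * γ.hom (j h) * b := by group
    rw [e] at h4
    obtain ⟨h', hh'⟩ := h4
    exact ⟨h', hh'.symm⟩
  have halg : ∀ g, al (γ.hom g) = ψ g := hγ1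
  let pr : B →* P := (MonoidHom.fst P A).comp B.subtype
  have hpr : ∀ b : B, q (pr b) = q ((al b).1.2) := fun b => b.2
  refine ⟨pr.comp ((MulAut.conj b⁻¹).toMonoidHom.comp (γ.hom.comp j)), ?_, ?_⟩
  · intro f
    change q (pr (b⁻¹ * γ.hom (j f) * b⁻¹⁻¹)) = ρ f
    rw [hpr, inv_inv, map_mul, map_mul, map_inv, hb2, halg, hψ, inv_one, one_mul, mul_one]
    exact hτ0 f
  · intro h
    change pr (b⁻¹ * γ.hom (j h) * b⁻¹⁻¹) = σ h
    rw [inv_inv]
    obtain ⟨h', hh'⟩ := hkey h
    rw [hh']
    change σ h' = σ h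
    apply hs1
    have h5 := congrArg al hh'
    rw [map_mul, map_mul, map_inv, hb2, halg, hψ, inv_one, one_mul, mul_one] at h5
    exact h5.symm

end Pool.Agent.Q24.PF
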